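import Mathlib

open MvPolynomial Finset

namespace Pool.Agent.Results.MP_e14bb7_co.AvgDegree

/-- `c` is a proper list colouring of `G` from the lists `L v`. -/
def IsListColouring {V α : Type*} (G : SimpleGraph V) (L : V → Finset α) (c : V → α) : Prop :=
  (∀ v, c v ∈ L v) ∧ ∀ u v, G.Adj u v → c u ≠ c v

/-- `G` is uniquely `k`-list colourable: for some assignment of `k`-element sets of colours to
the vertices there is exactly one proper list colouring. -/
def UniquelyListColourable {V : Type*} (G : SimpleGraph V) (k : ℕ) : Prop :=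
  ∃ (α : Type) (L : V → Finset α), (∀ v, (L v).card = k) ∧ ∃! c : V → α, IsListColouring G L c

/-- Property `M(k)`: `G` is not uniquely `k`-list colourable. -/
def PropertyM {V : Type*} (G : SimpleGraph V) (k : ℕ) : Prop :=
  ¬ UniquelyListColourable G k

section core

variable {V : Type*} [Fintype V] [DecidableEq V] (G : SimpleGraph V) [DecidableRel G.Adj]

/-- The graph polynomial. -/
noncomputable def gpoly (F : Type*) [Field F] : MvPolynomial V F :=
  ∏ e ∈ G.edgeFinset, (X (Quot.out e).1 - X (Quot.out e).2)

lemma sum_pderiv_gpoly (F : Type*) [Field F] :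
    ∑ v : V, pderiv v (gpoly G F) = 0 := by
  have key : ∀ s : Finset (Sym2 V),
      ∑ v : V, pderiv v (∏ e ∈ s, (X (Quot.out e).1 - X (Quot.out e).2 : MvPolynomial V F)) = 0 := by
    intro s
    induction s using Finset.induction_on with
    | empty => simp
    | insert e s he ih =>
      rw [Finset.prod_insert he]
      have h1 : ∀ v : V, pderiv v ((X (Quot.out e).1 - X (Quot.out e).2) *
          ∏ e ∈ s, (X (Quot.out e).1 - X (Quot.out e).2 : MvPolynomial V F)) =
          pderiv v (X (Quot.out e).1 - X (Quot.out e).2 : MvPolynomial V F) *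
            ∏ e ∈ s, (X (Quot.out e).1 - X (Quot.out e).2) +
          (X (Quot.out e).1 - X (Quot.out e).2) *
            pderiv v (∏ e ∈ s, (X (Quot.out e).1 - X (Quot.out e).2)) := by
        intro v
        rw [pderiv_mul]
      rw [Finset.sum_congr rfl (fun v _ => h1 v), Finset.sum_add_distrib, ← Finset.sum_mul,
        ← Finset.mul_sum, ih]
      have h2 : ∑ v : V, pderiv v (X (Quot.out e).1 - X (Quot.out e).2 : MvPolynomial V F) = 0 := by
        simp only [map_sub, Finset.sum_sub_distrib]
        have h3 : ∀ w : V, ∑ v : V, pderiv v (X w : MvPolynomial V F) = 1 := by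
          intro w
          rw [Finset.sum_eq_single w]
          · simp
          · intro b _ hb
            exact pderiv_X_of_ne (Ne.symm hb)
          · simp
        rw [h3, h3, sub_self]
      rw [h2]
      simp
  exact key _

/-- If `k = 0` in `F`, the coefficient of `∏ x_v ^ (k-1)` in the graph polynomial vanishes. -/
lemma coeff_gpoly [Nonempty V] (F : Type*) [Field F] (k : ℕ) (hk : 2 ≤ k) (hkF : (k : F) = 0) :
    coeff (Finsupp.equivFunOnFinite.symm (fun _ : V => k - 1)) (gpoly G F) = 0 := by
  obtain ⟨v0⟩ := ‹Nonempty V›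
  set μ : V →₀ ℕ := Finsupp.equivFunOnFinite.symm (fun _ : V => k - 1) with hμ
  have hμv : ∀ v, μ v = k - 1 := fun v => by simp [hμ]
  have h0 := congrArg (coeff (μ - Finsupp.single v0 1)) (sum_pderiv_gpoly G F)
  rw [coeff_sum, coeff_zero] at h0
  rw [Finset.sum_eq_single v0] at h0
  · rw [coeff_pderiv] at h0
    have h1 : μ - Finsupp.single v0 1 + Finsupp.single v0 1 = μ := by
      apply tsub_add_cancel_of_le
      rw [Finsupp.single_le_iff, hμv]
      omega
    rw [h1] at h0
    have h2 : ((((μ - Finsupp.single v0 1 : V →₀ ℕ)) v0 : ℕ) : F) + 1 = -1 := by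
      rw [Finsupp.tsub_apply, hμv, Finsupp.single_eq_same]
      have : ((k - 1 - 1 : ℕ) : F) = (k : F) - 2 := by
        rw [Nat.sub_sub]
        push_cast [Nat.cast_sub hk]
        ring
      rw [this, hkF]
      ring
    rw [h2] at h0
    simpa using h0
  · intro u _ hu
    rw [coeff_pderiv]
    have h2 : ((((μ - Finsupp.single v0 1 : V →₀ ℕ)) u : ℕ) : F) + 1 = 0 := by
      rw [Finsupp.tsub_apply, hμv, Finsupp.single_eq_of_ne hu, Nat.sub_zero]
      have : ((k - 1 : ℕ) : F) = (k : F) - 1 := by
        push_cast [Nat.cast_sub (by omega : 1 ≤ k)]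
        ring
      rw [this, hkF]
      ring
    rw [h2, mul_zero]
  · simp

omit [DecidableEq V] in
lemma totalDegree_gpoly (F : Type*) [Field F] :
    (gpoly G F).totalDegree ≤ G.edgeFinset.card := by
  unfold gpoly
  refine (totalDegree_finsetProd _ _).trans ?_
  refine (Finset.sum_le_card_nsmul _ _ 1 ?_).trans (by simp)
  intro e _
  refine (totalDegree_sub _ _).trans ?_
  simp

omit [DecidableEq V] in
lemma eval_gpoly_ne_zero (F : Type*) [Field F] (x : V → F) :
    eval x (gpoly G F) ≠ 0 ↔ ∀ u v, G.Adj u v → x u ≠ x v := by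
  unfold gpoly
  rw [map_prod, Finset.prod_ne_zero_iff]
  constructor
  · intro h u v huv
    have h1 := h s(u, v) (by simpa using huv)
    simp only [map_sub, eval_X] at h1
    have h2 : s((Quot.out s(u, v)).1, (Quot.out s(u, v)).2) = s(u, v) := by
      exact Quot.out_eq s(u, v)
    rw [Sym2.eq_iff] at h2
    rcases h2 with ⟨h3, h4⟩ | ⟨h3, h4⟩
    · rw [h3, h4] at h1
      exact sub_ne_zero.mp h1
    · rw [h3, h4] at h1
      exact (sub_ne_zero.mp h1).symm
  · intro h e he
    have h2 : s((Quot.out e).1, (Quot.out e).2) = e := Quot.out_eq e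
    rw [SimpleGraph.mem_edgeFinset, ← h2, SimpleGraph.mem_edgeSet] at he
    simp only [map_sub, eval_X]
    exact sub_ne_zero.mpr (h _ _ he)

lemma core [Nonempty V] (F : Type*) [Field F] [DecidableEq F] (k : ℕ) (hk : 2 ≤ k)
    (hkF : (k : F) = 0) (hE : G.edgeFinset.card ≤ (k - 1) * Fintype.card V) (L : V → Finset F)
    (hL : ∀ v, (L v).card = k) (c : V → F) (hc : IsListColouring G L c)
    (huniq : ∀ c', IsListColouring G L c' → c' = c) : False := by
  set μ : V →₀ ℕ := Finsupp.equivFunOnFinite.symm (fun _ : V => k - 1) with hμ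
  have hμv : ∀ v, μ v = k - 1 := fun v => by simp [hμ]
  have hμdeg : μ.degree = (k - 1) * Fintype.card V := by
    rw [Finsupp.degree_eq_sum]
    simp [hμv, mul_comm]
  let Q : MvPolynomial V F := ∏ v, ∏ a ∈ (L v).erase (c v), (X v - C a)
  let : LinearOrder V := WellOrderingRel.isWellOrder.linearOrder
  have hmon1 : ∀ (v : V) (a : F),
      (MonomialOrder.degLex (σ := V)).Monic (X v - C a : MvPolynomial V F) := fun v a =>
    MonomialOrder.degLex.monic_X_sub_C v a
  have hmon : ∀ v : V, (MonomialOrder.degLex (σ := V)).Monic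
          (∏ a ∈ (L v).erase (c v), (X v - C a : MvPolynomial V F)) := fun v =>
    MonomialOrder.Monic.prod (fun a _ => hmon1 v a)
  have hmonic : (MonomialOrder.degLex (σ := V)).Monic Q :=
    MonomialOrder.Monic.prod (fun v _ => hmon v)
  have hdegQ : (MonomialOrder.degLex (σ := V)).degree Q = μ := by
    have h1 : (MonomialOrder.degLex (σ := V)).degree Q =
        ∑ v, (MonomialOrder.degLex (σ := V)).degree
          (∏ a ∈ (L v).erase (c v), (X v - C a : MvPolynomial V F)) := by
      apply MonomialOrder.degree_prod_of_regular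
      intro v _
      rw [(hmon v).leadingCoeff_eq_one]
      exact isRegular_one
    have h2 : ∀ v, (MonomialOrder.degLex (σ := V)).degree
          (∏ a ∈ (L v).erase (c v), (X v - C a : MvPolynomial V F)) =
          Finsupp.single v (k - 1) := by
      intro v
      rw [MonomialOrder.degree_prod_of_regular]
      · simp only [MonomialOrder.degree_X_sub_C, Finset.sum_const]
        rw [Finset.card_erase_of_mem (hc.1 v), hL v]
        simp
      · intro a _
        rw [(hmon1 v a).leadingCoeff_eq_one]
        exact isRegular_one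
    rw [h1]
    ext w
    simp only [h2, Finsupp.coe_finsetSum, Finset.sum_apply, hμv]
    rw [Finset.sum_eq_single w]
    · simp
    · intro b _ hb
      exact Finsupp.single_eq_of_ne (Ne.symm hb)
    · simp
  have hcoeffQ : coeff μ Q = 1 := by
    have := hmonic.leadingCoeff_eq_one
    rw [MonomialOrder.leadingCoeff, hdegQ] at this
    exact this
  have htotQ : Q.totalDegree = μ.degree := by
    rw [← MvPolynomial.degree_degLexDegree, hdegQ]
  have hevQ : eval c Q ≠ 0 := by
    simp only [Q, map_prod, map_sub, eval_X, eval_C]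
    rw [Finset.prod_ne_zero_iff]
    intro v _
    rw [Finset.prod_ne_zero_iff]
    intro a ha
    exact sub_ne_zero.mpr (Finset.ne_of_mem_erase ha).symm
  have hevP : eval c (gpoly G F) ≠ 0 := (eval_gpoly_ne_zero G F c).mpr hc.2
  let R : MvPolynomial V F := C (eval c Q) * gpoly G F - C (eval c (gpoly G F)) * Q
  have hcoeffR : coeff μ R ≠ 0 := by
    simp only [R, coeff_sub, coeff_C_mul, hcoeffQ]
    rw [coeff_gpoly G F k hk hkF]
    simpa using hevP
  have htotR : R.totalDegree = μ.degree := by
    apply le_antisymm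
    · refine (totalDegree_sub _ _).trans (max_le ?_ ?_)
      · refine (totalDegree_mul _ _).trans ?_
        rw [totalDegree_C, zero_add, hμdeg]
        exact (totalDegree_gpoly G F).trans hE
      · refine (totalDegree_mul _ _).trans ?_
        rw [totalDegree_C, zero_add, htotQ]
    · have := le_totalDegree (mem_support_iff.mpr hcoeffR)
      rwa [Finsupp.degree_apply]
  obtain ⟨s, hs, hsR⟩ := combinatorial_nullstellensatz_exists_eval_nonzero R μ hcoeffR htotR L
    (fun v => by rw [hμv, hL]; omega)
  apply hsR
  by_cases hsc : s = c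
  · subst hsc
    simp only [R, map_sub, map_mul, eval_C]
    ring
  · have h1 : eval s (gpoly G F) = 0 := by
      by_contra h
      exact hsc (huniq s ⟨hs, (eval_gpoly_ne_zero G F s).mp h⟩)
    have h2 : eval s Q = 0 := by
      obtain ⟨v, hv⟩ := Function.ne_iff.mp hsc
      simp only [Q, map_prod, map_sub, eval_X, eval_C]
      apply Finset.prod_eq_zero (Finset.mem_univ v)
      apply Finset.prod_eq_zero (Finset.mem_erase.mpr ⟨hv, hs v⟩)
      simp
    simp only [R, map_sub, map_mul, h1, h2, mul_zero, sub_zero]

end core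

/-- Every graph of average degree exactly `2k - 2` (with `k ≥ 2`) has property `M(k)`. -/
theorem result (k : ℕ) (hk : 2 ≤ k) (V : Type*) [Fintype V] [Nonempty V] (G : SimpleGraph V)
    [DecidableRel G.Adj]
    (havg : 2 * (G.edgeFinset.card : ℚ) / (Fintype.card V : ℚ) = 2 * (k : ℚ) - 2) :
    PropertyM G k := by
  classical
  rintro ⟨α, L, hL, c, hc, huniq⟩
  have hcard : (0 : ℚ) < Fintype.card V := by exact_mod_cast Fintype.card_pos
  have hE : G.edgeFinset.card = (k - 1) * Fintype.card V := by
    have h1 : 2 * (G.edgeFinset.card : ℚ) = (2 * (k : ℚ) - 2) * Fintype.card V := by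
      rw [← havg]; field_simp
    have h2 : (G.edgeFinset.card : ℚ) = ((k - 1 : ℕ) : ℚ) * Fintype.card V := by
      push_cast [Nat.cast_sub (by omega : 1 ≤ k)]
      linarith
    exact_mod_cast h2
  -- a field of characteristic dividing `k`
  set p := k.minFac with hp
  have hpp : p.Prime := Nat.minFac_prime (by omega)
  have : Fact p.Prime := ⟨hpp⟩
  let F := AlgebraicClosure (ZMod p)
  have : CharP F p := inferInstance
  have hkF : (k : F) = 0 := (CharP.cast_eq_zero_iff F p k).mpr (Nat.minFac_dvd k)
  -- inject the colours in use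
  let S : Finset α := Finset.univ.biUnion L
  have : Infinite F := IsAlgClosed.instInfinite
  let emb : S ↪ F := S.equivFin.toEmbedding.trans (Fin.valEmbedding.trans (Infinite.natEmbedding F))
  let t : α → F := fun a => if h : a ∈ S then emb ⟨a, h⟩ else 0
  have ht : ∀ a ∈ S, ∀ b ∈ S, t a = t b → a = b := by
    intro a ha b hb hab
    simp only [t, dif_pos ha, dif_pos hb] at hab
    have := emb.injective hab
    simpa using this
  have hLS : ∀ v, L v ⊆ S := fun v => Finset.subset_biUnion_of_mem L (Finset.mem_univ v)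
  refine core G F k hk hkF hE.le (fun v => (L v).image t) ?_ (fun v => t (c v)) ?_ ?_
  · intro v
    rw [Finset.card_image_of_injOn, hL v]
    intro a ha b hb hab
    exact ht a (hLS v ha) b (hLS v hb) hab
  · refine ⟨fun v => Finset.mem_image_of_mem t (hc.1 v), fun u v huv h => ?_⟩
    exact hc.2 u v huv (ht _ (hLS u (hc.1 u)) _ (hLS v (hc.1 v)) h)
  · intro c' hc'
    have h1 : ∀ v, ∃ a ∈ L v, t a = c' v := fun v => Finset.mem_image.mp (hc'.1 v)
    choose d hd hdt using h1
    have hdc : d = c := by
      apply huniq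
      refine ⟨hd, fun u v huv h => hc'.2 u v huv ?_⟩
      rw [← hdt u, ← hdt v, h]
    funext v
    rw [← hdt v, hdc]

end Pool.Agent.Results.MP_e14bb7_co.AvgDegree
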